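import Mathlib

set_option autoImplicit false
set_option linter.unusedSectionVars false

namespace Pool.Agent.H71.Haemers

open Finset

variable {V : Type*} [Fintype V] [DecidableEq V]

/-- Counting graphs: if the graphs of a family are determined by their edges outside `Z`,
then the family has at most a `2 ^ (-|Z|)` proportion of all graphs. -/
lemma card_mul_two_pow_le (𝒢 : Finset (SimpleGraph V)) (Z : Finset (Sym2 V))
    (hZ : ∀ e ∈ Z, ¬ e.IsDiag)
    (h : ∀ G ∈ 𝒢, ∀ G' ∈ 𝒢, G.edgeSet \ (Z : Set (Sym2 V)) = G'.edgeSet \ (Z : Set (Sym2 V)) →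
      G = G') :
    𝒢.card * 2 ^ Z.card ≤ Nat.card (SimpleGraph V) := by
  classical
  rw [Nat.card_eq_fintype_card, ← Finset.card_powerset, ← Finset.card_product, ← Finset.card_univ]
  have key : ∀ (G : SimpleGraph V) (S : Finset (Sym2 V)), S ∈ Z.powerset →
      (SimpleGraph.fromEdgeSet ((G.edgeSet \ (Z : Set (Sym2 V))) ∪ (S : Set (Sym2 V)))).edgeSet
        = (G.edgeSet \ (Z : Set (Sym2 V))) ∪ (S : Set (Sym2 V)) := by
    intro G S hS
    rw [SimpleGraph.edgeSet_fromEdgeSet]
    rw [Finset.mem_powerset] at hS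
    rw [sdiff_eq_left, Set.disjoint_left]
    intro e he hd
    rcases he with he | he
    · exact G.not_isDiag_of_mem_edgeSet he.1 hd
    · exact hZ e (hS he) hd
  refine Finset.card_le_card_of_injOn
    (fun x => SimpleGraph.fromEdgeSet ((x.1.edgeSet \ (Z : Set (Sym2 V))) ∪ (x.2 : Set (Sym2 V))))
    (fun _ _ => Finset.mem_univ _) ?_
  rintro ⟨G, S⟩ hx ⟨G', S'⟩ hx' heq
  rw [Finset.mem_coe, Finset.mem_product] at hx hx'
  have e1 := congrArg SimpleGraph.edgeSet heq
  simp only at e1
  rw [key G S hx.2, key G' S' hx'.2] at e1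
  have hS := Finset.mem_powerset.mp hx.2
  have hS' := Finset.mem_powerset.mp hx'.2
  have e2 : S = S' := by
    ext e
    constructor
    · intro he
      have : e ∈ (G'.edgeSet \ (Z : Set (Sym2 V))) ∪ (S' : Set (Sym2 V)) := by
        rw [← e1]; exact Or.inr he
      rcases this with h1 | h1
      · exact absurd (hS he) h1.2
      · exact h1
    · intro he
      have : e ∈ (G.edgeSet \ (Z : Set (Sym2 V))) ∪ (S : Set (Sym2 V)) := by
        rw [e1]; exact Or.inr he
      rcases this with h1 | h1
      · exact absurd (hS' he) h1.2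
      · exact h1
  have e3 : G.edgeSet \ (Z : Set (Sym2 V)) = G'.edgeSet \ (Z : Set (Sym2 V)) := by
    ext e
    constructor
    · intro he
      have : e ∈ (G'.edgeSet \ (Z : Set (Sym2 V))) ∪ (S' : Set (Sym2 V)) := by
        rw [← e1]; exact Or.inl he
      rcases this with h1 | h1
      · exact h1
      · exact absurd (hS' h1) he.2
    · intro he
      have : e ∈ (G.edgeSet \ (Z : Set (Sym2 V))) ∪ (S : Set (Sym2 V)) := by
        rw [e1]; exact Or.inl he
      rcases this with h1 | h1
      · exact h1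
      · exact absurd (hS h1) he.2
  rw [Prod.mk.injEq]
  exact ⟨h G hx.1 G' hx'.1 e3, e2⟩

/-- Minimal separating coordinate sets of a subspace. -/
lemma exists_pivots {F : Type*} [Field F] (U : Submodule F (V → F)) (T : Finset V)
    (hT : ∀ u ∈ U, (∀ j ∈ T, u j = 0) → u = 0) :
    ∃ R ⊆ T, (∀ u ∈ U, (∀ j ∈ R, u j = 0) → u = 0) ∧
      ∀ a ∈ R, ∃ u ∈ U, u a = 1 ∧ ∀ b ∈ R, b ≠ a → u b = 0 := by
  classical
  obtain ⟨R, hR, hmin⟩ := (Finset.filter (fun R => ∀ u ∈ U, (∀ j ∈ R, u j = 0) → u = 0)
    T.powerset).exists_minimal ⟨T, by simp only [Finset.mem_filter, Finset.mem_powerset]; exact ⟨Finset.Subset.refl _, hT⟩⟩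
  rw [Finset.mem_filter, Finset.mem_powerset] at hR
  refine ⟨R, hR.1, hR.2, ?_⟩
  intro a ha
  have hlt : R.erase a < R := Finset.erase_ssubset ha
  have hnot : ¬ (∀ u ∈ U, (∀ j ∈ R.erase a, u j = 0) → u = 0) := by
    intro hcon
    have hmem : R.erase a ∈ Finset.filter (fun R => ∀ u ∈ U, (∀ j ∈ R, u j = 0) → u = 0)
        T.powerset := by
      rw [Finset.mem_filter, Finset.mem_powerset]
      exact ⟨(Finset.erase_subset _ _).trans hR.1, hcon⟩
    exact absurd (hmin hmem hlt.le) (not_le_of_gt hlt)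
  push Not at hnot
  obtain ⟨u, hu, hz, hne⟩ := hnot
  have hua : u a ≠ 0 := by
    intro h0
    apply hne
    apply hR.2 u hu
    intro j hj
    by_cases hja : j = a
    · rw [hja]; exact h0
    · exact hz j (Finset.mem_erase.mpr ⟨hja, hj⟩)
  refine ⟨(u a)⁻¹ • u, U.smul_mem _ hu, ?_, ?_⟩
  · simp [hua]
  · intro b hb hba
    simp [hz b (Finset.mem_erase.mpr ⟨hba, hb⟩)]

lemma card_le_finrank {F : Type*} [Field F] (U : Submodule F (V → F)) (R : Finset V)
    (h : ∀ a ∈ R, ∃ u ∈ U, u a = 1 ∧ ∀ b ∈ R, b ≠ a → u b = 0) :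
    R.card ≤ Module.finrank F U := by
  classical
  choose! f hf using h
  have hli : LinearIndependent F (fun a : R => (⟨f a, (hf a a.2).1⟩ : U)) := by
    rw [Fintype.linearIndependent_iff]
    intro g hg a
    have h1 := congrArg (fun x : U => (x : V → F) a) hg
    simp only [AddSubmonoidClass.coe_finsetSum, SetLike.val_smul, Submodule.coe_zero, Finset.sum_apply, Pi.smul_apply, Pi.zero_apply, smul_eq_mul] at h1
    rw [Finset.sum_eq_single a] at h1
    · rw [(hf a a.2).2.1, mul_one] at h1
      exact h1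
    · intro b _ hba
      rw [(hf b b.2).2.2 a a.2 (fun h => hba (Subtype.ext h.symm)), mul_zero]
    · simp
  have := hli.fintype_card_le_finrank
  simpa using this

lemma finrank_le_card {F : Type*} [Field F] (U : Submodule F (V → F)) (R : Finset V)
    (h : ∀ u ∈ U, (∀ j ∈ R, u j = 0) → u = 0) :
    Module.finrank F U ≤ R.card := by
  classical
  let φ : U →ₗ[F] (R → F) :=
    { toFun := fun u j => (u : V → F) j
      map_add' := fun _ _ => rfl
      map_smul' := fun _ _ => rfl }
  have hinj : Function.Injective φ := by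
    rw [← LinearMap.ker_eq_bot, LinearMap.ker_eq_bot']
    intro u hu
    apply Subtype.ext
    apply h u u.2
    intro j hj
    exact congrFun hu ⟨j, hj⟩
  have := LinearMap.finrank_le_finrank_of_injective hinj
  simpa using this

open Classical in
/-- 0/1 adjacency function -/
noncomputable def adjF (F : Type*) [Zero F] [One F] (G : SimpleGraph V) (i j : V) : F :=
  if G.Adj i j then 1 else 0

/-- Key count: for a fixed isotropic subspace `U`, few graphs have an adjacency matrix which
preserves `U`. -/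
lemma inv_count {F : Type*} [Field F] (U : Submodule F (V → F))
    (hiso : ∀ u ∈ U, ∀ v ∈ U, ∑ i, u i * v i = 0) (r' : ℕ) (hr' : r' ≤ Module.finrank F U)
    (𝒢 : Finset (SimpleGraph V))
    (h𝒢 : ∀ G ∈ 𝒢, ∀ u ∈ U, (fun i => ∑ j, adjF F G i j * u j) ∈ U) :
    𝒢.card * 2 ^ (r' * (Fintype.card V - Module.finrank F U - r')) ≤
      Nat.card (SimpleGraph V) := by
  classical
  obtain ⟨P, -, hP1, hP2⟩ := exists_pivots U Finset.univ
    (fun u _ h => funext fun j => h j (Finset.mem_univ j))
  have hPcard : P.card = Module.finrank F U :=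
    le_antisymm (card_le_finrank U P hP2) (finrank_le_card U P hP1)
  obtain ⟨P', hP'P, hP'card⟩ := Finset.exists_subset_card_eq (hPcard ▸ hr')
  -- the subspace `U'`
  let U' : Submodule F (V → F) :=
    { carrier := {u | u ∈ U ∧ ∀ b ∈ P, b ∉ P' → u b = 0}
      add_mem' := fun {x y} hx hy => ⟨U.add_mem hx.1 hy.1, fun b hb hb' => by
        simp [hx.2 b hb hb', hy.2 b hb hb']⟩
      zero_mem' := ⟨U.zero_mem, fun _ _ _ => rfl⟩
      smul_mem' := fun c x hx => ⟨U.smul_mem c hx.1, fun b hb hb' => by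
        simp [hx.2 b hb hb']⟩ }
  have hU' : ∀ u, u ∈ U' ↔ u ∈ U ∧ ∀ b ∈ P, b ∉ P' → u b = 0 := fun u => Iff.rfl
  have hT : ∀ u ∈ U', (∀ j ∈ Pᶜ, u j = 0) → u = 0 := by
    intro u hu hz
    rw [hU'] at hu
    apply hP1 u hu.1
    intro b hb
    obtain ⟨w, hw, hw1, hw2⟩ := hP2 b hb
    have h0 := hiso u hu.1 w hw
    rw [Finset.sum_eq_single b] at h0
    · rwa [hw1, mul_one] at h0
    · intro i _ hib
      by_cases hiP : i ∈ P
      · rw [hw2 i hiP hib, mul_zero]
      · rw [hz i (Finset.mem_compl.mpr hiP), zero_mul]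
    · simp
  obtain ⟨R, hRP, hR1, hR2⟩ := exists_pivots U' Pᶜ hT
  have hRcard : R.card ≤ r' := by
    refine (card_le_finrank U' R hR2).trans ?_
    rw [← hP'card]
    apply finrank_le_card
    intro u hu hz
    rw [hU'] at hu
    apply hP1 u hu.1
    intro j hj
    by_cases hjP' : j ∈ P'
    · exact hz j hjP'
    · exact hu.2 j hj hjP'
  set S0 : Finset V := (P ∪ R)ᶜ with hS0
  have hS0card : Fintype.card V - Module.finrank F U - r' ≤ S0.card := by
    rw [hS0, Finset.card_compl]
    have := Finset.card_union_le P R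
    omega
  have hdis : ∀ a ∈ P', ∀ j ∈ S0, a ≠ j := by
    rintro a ha j hj rfl
    rw [hS0, Finset.mem_compl] at hj
    exact hj (Finset.mem_union_left _ (hP'P ha))
  have hS0P : ∀ j ∈ S0, j ∉ P := by
    intro j hj hjP
    rw [hS0, Finset.mem_compl] at hj
    exact hj (Finset.mem_union_left _ hjP)
  have hS0R : ∀ j ∈ S0, j ∉ R := by
    intro j hj hjP
    rw [hS0, Finset.mem_compl] at hj
    exact hj (Finset.mem_union_right _ hjP)
  set Z : Finset (Sym2 V) := (P' ×ˢ S0).image (fun x => s(x.1, x.2)) with hZdef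
  have hZmem : ∀ i j, s(i, j) ∈ Z ↔ (i ∈ P' ∧ j ∈ S0) ∨ (j ∈ P' ∧ i ∈ S0) := by
    intro i j
    rw [hZdef, Finset.mem_image]
    constructor
    · rintro ⟨⟨a, b⟩, hab, he⟩
      rw [Finset.mem_product] at hab
      simp only [Sym2.eq_iff] at he
      rcases he with ⟨rfl, rfl⟩ | ⟨rfl, rfl⟩
      · exact Or.inl hab
      · exact Or.inr hab
    · rintro (h | h)
      · exact ⟨(i, j), Finset.mem_product.mpr h, rfl⟩
      · exact ⟨(j, i), Finset.mem_product.mpr h, Sym2.eq_swap⟩
  have hZcard : Z.card = r' * S0.card := by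
    rw [hZdef, Finset.card_image_of_injOn, Finset.card_product, hP'card]
    rintro ⟨a, j⟩ h1 ⟨a', j'⟩ h2 he
    rw [Finset.mem_coe, Finset.mem_product] at h1 h2
    simp only [Sym2.eq_iff] at he
    rcases he with ⟨rfl, rfl⟩ | ⟨rfl, rfl⟩
    · rfl
    · exact absurd rfl (hdis _ h1.1 _ h2.2)
  have hmain := card_mul_two_pow_le 𝒢 Z (by
    intro e
    induction e with
    | _ i j =>
      intro he hd
      rw [hZmem] at he
      rw [Sym2.mk_isDiag_iff] at hd
      subst hd
      rcases he with h | h <;> exact hdis _ h.1 _ h.2 rfl) ?_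
  · refine le_trans (Nat.mul_le_mul_left _ (Nat.pow_le_pow_right (by norm_num) ?_)) hmain
    rw [hZcard]
    exact Nat.mul_le_mul_left _ hS0card
  · intro G hG G' hG' hagree
    -- difference matrix
    set Δ : V → V → F := fun i j => adjF F G i j - adjF F G' i j with hΔ
    have hadj : ∀ i j, s(i, j) ∉ Z → (G.Adj i j ↔ G'.Adj i j) := by
      intro i j hij
      have := Set.ext_iff.mp hagree s(i, j)
      simp only [Set.mem_sdiff, SimpleGraph.mem_edgeSet, Finset.mem_coe, hij, not_false_eq_true,
        and_true] at this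
      exact this
    have hΔ0 : ∀ i j, s(i, j) ∉ Z → Δ i j = 0 := by
      intro i j hij
      simp only [hΔ, adjF, hadj i j hij, sub_self]
    have hΔU : ∀ u ∈ U, (fun i => ∑ j, Δ i j * u j) ∈ U := by
      intro u hu
      have h1 := U.sub_mem (h𝒢 G hG u hu) (h𝒢 G' hG' u hu)
      convert h1 using 1
      funext i
      simp only [hΔ, Pi.sub_apply, sub_mul, Finset.sum_sub_distrib]
    have hΔU' : ∀ u ∈ U', ∀ i, ∑ j, Δ i j * u j = 0 := by
      intro u hu
      have hmem : (fun i => ∑ j, Δ i j * u j) ∈ U' := by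
        rw [hU']
        refine ⟨hΔU u ((hU' u).mp hu).1, ?_⟩
        intro b hb hb'
        apply Finset.sum_eq_zero
        intro m _
        rw [hΔ0 b m, zero_mul]
        rw [hZmem]
        rintro (h | h)
        · exact hb' h.1
        · exact hS0P b h.2 hb
      have hzero := hR1 _ hmem (by
        intro j hj
        apply Finset.sum_eq_zero
        intro m _
        rw [hΔ0 j m, zero_mul]
        rw [hZmem]
        rintro (h | h)
        · exact (Finset.mem_compl.mp (hRP hj)) (hP'P h.1)
        · exact hS0R j h.2 hj)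
      intro i
      exact congrFun hzero i
    have hfin : ∀ a ∈ P', ∀ j ∈ S0, Δ j a = 0 := by
      intro a ha j hj
      obtain ⟨u, hu, hu1, hu2⟩ := hP2 a (hP'P ha)
      have huU' : u ∈ U' := by
        rw [hU']
        refine ⟨hu, ?_⟩
        intro b hb hb'
        apply hu2 b hb
        rintro rfl
        exact hb' ha
      have h0 := hΔU' u huU' j
      rw [Finset.sum_eq_single a] at h0
      · rwa [hu1, mul_one] at h0
      · intro m _ hma
        by_cases hmP : m ∈ P
        · rw [hu2 m hmP hma, mul_zero]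
        · rw [hΔ0 j m, zero_mul]
          rw [hZmem]
          rintro (h | h)
          · exact hS0P j hj (hP'P h.1)
          · exact hmP (hP'P h.1)
      · simp
    have hsymm : ∀ i j, Δ i j = Δ j i := by
      intro i j
      simp only [hΔ, adjF, G.adj_comm i j, G'.adj_comm i j]
    have hall : ∀ i j, Δ i j = 0 := by
      intro i j
      by_cases hij : s(i, j) ∈ Z
      · rw [hZmem] at hij
        rcases hij with h | h
        · rw [hsymm]; exact hfin i h.1 j h.2
        · exact hfin j h.1 i h.2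
      · exact hΔ0 i j hij
    ext i j
    have h0 : adjF F G i j - adjF F G' i j = 0 := hall i j
    unfold adjF at h0
    by_cases h1 : G.Adj i j
    · by_cases h2 : G'.Adj i j
      · exact ⟨fun _ => h2, fun _ => h1⟩
      · rw [if_pos h1, if_neg h2] at h0
        simp at h0
    · by_cases h2 : G'.Adj i j
      · rw [if_neg h1, if_pos h2] at h0
        simp at h0
      · exact ⟨fun h => absurd h h1, fun h => absurd h h2⟩

end Pool.Agent.H71.Haemers
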