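import Pool.Agent.H71.Haemers.Short

set_option autoImplicit false
set_option linter.unusedSectionVars false

namespace Pool.Agent.H71.Haemers

open Finset Matrix

/-- If every column of `Q` has exactly one nonzero entry (up to orthogonality, `± e_i`), then the
two graphs are isomorphic. -/
lemma iso_of_monomial {K : Type*} [Field K] [LinearOrder K] [IsStrictOrderedRing K]
    {V : Type*} [Fintype V] [DecidableEq V]
    (G H : SimpleGraph V) (Q : Matrix V V K) (hQ : Qᵀ * Q = 1)
    (hmono : ∀ j, ∃ i, ∀ i', i' ≠ i → Q i' j = 0)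
    (hGH : ∀ j k, (∑ i, ∑ l, Q i j * adjF K G i l * Q l k) = adjF K H j k) :
    Nonempty (G ≃g H) := by
  classical
  choose σ hσ using hmono
  have hcol : ∀ j, Q (σ j) j * Q (σ j) j = 1 := by
    intro j
    have := congrFun (congrFun hQ j) j
    rw [Matrix.mul_apply, Matrix.one_apply_eq] at this
    rw [← this, Finset.sum_eq_single (σ j)]
    · rw [Matrix.transpose_apply]
    · intro i _ hi
      rw [hσ j i hi, mul_zero]
    · simp
  have hne : ∀ j, Q (σ j) j ≠ 0 := by
    intro j h0
    have := hcol j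
    rw [h0] at this
    simp at this
  have hinj : Function.Injective σ := by
    intro j k hjk
    by_contra hne'
    have := congrFun (congrFun hQ j) k
    rw [Matrix.mul_apply, Matrix.one_apply_ne hne', Finset.sum_eq_single (σ j)] at this
    · rw [Matrix.transpose_apply] at this
      rcases mul_eq_zero.mp this with h | h
      · exact hne j h
      · rw [hjk] at h; exact hne k h
    · intro i _ hi
      rw [Matrix.transpose_apply, hσ j i hi, zero_mul]
    · simp
  have hbij : Function.Bijective σ := Finite.injective_iff_bijective.mp hinj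
  have hent : ∀ j k, Q (σ j) j * adjF K G (σ j) (σ k) * Q (σ k) k = adjF K H j k := by
    intro j k
    rw [← hGH j k, Finset.sum_eq_single (σ j)]
    · rw [Finset.sum_eq_single (σ k)]
      · intro l _ hl
        rw [hσ k l hl, mul_zero]
      · simp
    · intro i _ hi
      apply Finset.sum_eq_zero
      intro l _
      rw [hσ j i hi, zero_mul, zero_mul]
    · simp
  have hsign : ∀ j, Q (σ j) j = 1 ∨ Q (σ j) j = -1 := fun j => mul_self_eq_one_iff.mp (hcol j)
  refine ⟨SimpleGraph.Iso.symm ⟨Equiv.ofBijective σ hbij, ?_⟩⟩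
  intro j k
  have h := hent j k
  simp only [Equiv.ofBijective_apply]
  unfold adjF at h
  by_cases h1 : G.Adj (σ j) (σ k)
  · by_cases h2 : H.Adj j k
    · exact ⟨fun _ => h2, fun _ => h1⟩
    · exfalso
      rw [if_pos h1, if_neg h2, mul_one] at h
      rcases mul_eq_zero.mp h with h | h
      · exact hne j h
      · exact hne k h
  · by_cases h2 : H.Adj j k
    · exfalso
      rw [if_neg h1, if_pos h2] at h
      simp at h
    · exact ⟨fun h => absurd h h1, fun h => absurd h h2⟩

/-- the invariance event for a given prime and given short integer vectors -/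
def Good (n p r : ℕ) (f : Fin r → (Fin n → ℤ)) (G : SimpleGraph (Fin n)) : Prop :=
  ∃ _ : Fact p.Prime,
    Module.finrank (ZMod p)
      (Submodule.span (ZMod p) (Set.range fun a => (fun i => ((f a i : ℤ) : ZMod p)))) = r ∧
    (∀ u ∈ Submodule.span (ZMod p) (Set.range fun a => (fun i => ((f a i : ℤ) : ZMod p))),
      ∀ v ∈ Submodule.span (ZMod p) (Set.range fun a => (fun i => ((f a i : ℤ) : ZMod p))),
        ∑ i, u i * v i = 0) ∧
    ∀ u ∈ Submodule.span (ZMod p) (Set.range fun a => (fun i => ((f a i : ℤ) : ZMod p))),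
      (fun i => ∑ j, adjF (ZMod p) G i j * u j) ∈
        Submodule.span (ZMod p) (Set.range fun a => (fun i => ((f a i : ℤ) : ZMod p)))

open Classical in
lemma card_good_le (n p r : ℕ) (f : Fin r → (Fin n → ℤ)) :
    ((Finset.univ.filter (Good n p r f)).card : ℝ) ≤
      ((2 : ℝ) ^ (-((n : ℝ) - 2) / 8)) ^ r * Nat.card (SimpleGraph (Fin n)) := by
  by_cases hex : ∃ G, Good n p r f G
  · obtain ⟨G0, hp, hr, hiso, _⟩ := hex
    set U := Submodule.span (ZMod p) (Set.range fun a => (fun i => ((f a i : ℤ) : ZMod p))) with hU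
    have h2r : 2 * r ≤ n := by
      have := two_mul_finrank_le U hiso
      rw [hr, Fintype.card_fin] at this
      exact this
    have hcount := inv_count U hiso ((r + 1) / 2) (by rw [hr]; omega)
      (Finset.univ.filter (Good n p r f)) (by
        intro G hG
        rw [Finset.mem_filter] at hG
        obtain ⟨_, _, _, _, hinv⟩ := hG
        exact hinv)
    rw [hr, Fintype.card_fin] at hcount
    have hcount' : ((Finset.univ.filter (Good n p r f)).card : ℝ) *
        2 ^ ((r + 1) / 2 * (n - r - (r + 1) / 2)) ≤ Nat.card (SimpleGraph (Fin n)) := by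
      exact_mod_cast hcount
    have hexp : ((r : ℝ) * (((n : ℝ) - 2) / 8)) ≤
        (((r + 1) / 2 * (n - r - (r + 1) / 2) : ℕ) : ℝ) := by
      have e1 : (r : ℝ) / 2 ≤ (((r + 1) / 2 : ℕ) : ℝ) := by
        have : r ≤ 2 * ((r + 1) / 2) := by omega
        have : (r : ℝ) ≤ 2 * (((r + 1) / 2 : ℕ) : ℝ) := by exact_mod_cast this
        linarith
      have e2 : ((n : ℝ) - 2) / 4 ≤ ((n - r - (r + 1) / 2 : ℕ) : ℝ) := by
        have : n ≤ 4 * (n - r - (r + 1) / 2) + 2 := by omega
        have : (n : ℝ) ≤ 4 * ((n - r - (r + 1) / 2 : ℕ) : ℝ) + 2 := by exact_mod_cast this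
        linarith
      rw [Nat.cast_mul]
      have e3 : (0 : ℝ) ≤ ((n - r - (r + 1) / 2 : ℕ) : ℝ) := Nat.cast_nonneg _
      calc (r : ℝ) * (((n : ℝ) - 2) / 8) = (r / 2) * (((n : ℝ) - 2) / 4) := by ring
        _ ≤ (r / 2) * ((n - r - (r + 1) / 2 : ℕ) : ℝ) :=
            mul_le_mul_of_nonneg_left e2 (by positivity)
        _ ≤ _ := mul_le_mul_of_nonneg_right e1 e3
    have hpow : (2 : ℝ) ^ ((r : ℝ) * (((n : ℝ) - 2) / 8)) ≤
        2 ^ ((r + 1) / 2 * (n - r - (r + 1) / 2)) := by
      rw [← Real.rpow_natCast 2 ((r + 1) / 2 * (n - r - (r + 1) / 2))]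
      exact Real.rpow_le_rpow_of_exponent_le (by norm_num) hexp
    have hform : ((2 : ℝ) ^ (-((n : ℝ) - 2) / 8)) ^ r =
        ((2 : ℝ) ^ ((r : ℝ) * (((n : ℝ) - 2) / 8)))⁻¹ := by
      rw [← Real.rpow_natCast, ← Real.rpow_mul (by norm_num), ← Real.rpow_neg (by norm_num)]
      congr 1
      ring
    rw [hform]
    have hpos : (0 : ℝ) < (2 : ℝ) ^ ((r : ℝ) * (((n : ℝ) - 2) / 8)) := by positivity
    rw [inv_mul_eq_div, le_div_iff₀ hpos]
    refine le_trans ?_ hcount'
    exact mul_le_mul_of_nonneg_left hpow (Nat.cast_nonneg _)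
  · push Not at hex
    have : Finset.univ.filter (Good n p r f) = ∅ := by
      apply Finset.filter_eq_empty_iff.mpr
      intro G _
      exact hex G
    rw [this]
    simp only [Finset.card_empty, Nat.cast_zero]
    positivity

end Pool.Agent.H71.Haemers
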