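import Pool.Agent.H71.Haemers.Local
import Pool.Agent.H71.Haemers.Level

set_option autoImplicit false
set_option linter.unusedSectionVars false

namespace Pool.Agent.H71.Haemers

open Finset Matrix

variable {V : Type*} [Fintype V] [DecidableEq V]

/-- the three allowed values -/
def Tri (x : ℝ) : Prop := x = -1 ∨ x = 0 ∨ x = 1

/-- admissible weights given the rows in `I` -/
def Adm (G : SimpleGraph V) (S I : Finset V) (β : I → ℤ) (q : S → ℝ) : Prop :=
  (∀ m, q m ≠ 0 ∧ |q m| < 1) ∧ ∀ i : I, ∑ m ∈ row G S i, q m = β i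

/-- a chosen admissible weight -/
noncomputable def q0 (G : SimpleGraph V) (S I : Finset V) (β : I → ℤ) : S → ℝ :=
  Classical.epsilon (Adm G S I β)

open Classical in
/-- the event -/
def Ev (S I : Finset V) (β : I → ℤ) (t : ℕ) (G : SimpleGraph V) : Prop :=
  (∃ q, Adm G S I β q) ∧
    t ≤ (Finset.univ.filter
      (fun i : ((S ∪ I)ᶜ : Finset V) => Tri (∑ m ∈ row G S i, q0 G S I β m))).card + I.card

open Classical in
lemma card_ev_le (S I : Finset V) (hSI : Disjoint S I) (β : I → ℤ) (t : ℕ) (x ρ : ℝ)
    (hx : 1 ≤ x) (hρ : 0 ≤ ρ)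
    (hgood : ∀ q : S → ℝ, (∀ m, q m ≠ 0 ∧ |q m| < 1) →
      (((Finset.univ : Finset (Finset S)).filter (fun A => Tri (∑ m ∈ A, q m))).card : ℝ) ≤
        ρ * 2 ^ S.card) :
    ((Finset.univ.filter (Ev S I β t)).card : ℝ) * x ^ t ≤
      x ^ I.card * (1 + ρ * (x - 1)) ^ Fintype.card V * Nat.card (SimpleGraph V) := by
  set X : Finset V := (S ∪ I)ᶜ with hX
  have hXS : Disjoint X S := by
    rw [hX, Finset.disjoint_left]
    intro a ha haS
    rw [Finset.mem_compl] at ha
    exact ha (Finset.mem_union_left _ haS)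
  set Fn : ((S → ℝ) → Prop) → Finset S → ℝ := fun P A =>
    if ∃ q, P q then (if Tri (∑ m ∈ A, Classical.epsilon P m) then x else 1) else 0 with hFn
  set F : SimpleGraph V → Finset S → ℝ := fun G => Fn (Adm G S I β) with hF
  have hx0 : 0 < x := by linarith
  have hB1 : 1 ≤ 1 + ρ * (x - 1) := by nlinarith
  have hAdm : ∀ G G' : SimpleGraph V, G.deleteEdges (crossEdges X S : Set (Sym2 V)) =
      G'.deleteEdges (crossEdges X S : Set (Sym2 V)) → Adm G S I β = Adm G' S I β := by
    intro G G' he
    have hrow : ∀ i : I, row G S i = row G' S i := by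
      intro i
      ext m
      rw [mem_row, mem_row]
      have h1 := congrArg SimpleGraph.edgeSet he
      simp only [SimpleGraph.edgeSet_deleteEdges] at h1
      have h2 := Set.ext_iff.mp h1 s((i : V), (m : V))
      have h3 : s((i : V), (m : V)) ∉ crossEdges X S := by
        rw [mem_crossEdges]
        rintro (h | h)
        · rw [hX, Finset.mem_compl] at h
          exact h.1 (Finset.mem_union_right _ i.2)
        · exact Finset.disjoint_left.mp hSI h.2 i.2
      simp only [Set.mem_sdiff, SimpleGraph.mem_edgeSet, Finset.mem_coe, h3, not_false_eq_true,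
        and_true] at h2
      exact h2
    funext q
    unfold Adm
    simp only [hrow]
  have hmain := sum_prod_le S X hXS F (by
      intro G A
      simp only [hF, hFn]
      split_ifs <;> linarith) (by
      intro G G' he
      exact congrArg Fn (hAdm G G' he)) (1 + ρ * (x - 1)) (by
      intro G
      by_cases hex : ∃ q, Adm G S I β q
      · have hq0 : Adm G S I β (q0 G S I β) := Classical.epsilon_spec hex
        have hcard := hgood _ hq0.1
        have e1 : ∀ A : Finset S, F G A =
            1 + (if Tri (∑ m ∈ A, q0 G S I β m) then (x - 1) else 0) := by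
          intro A
          simp only [hF, hFn, if_pos hex]
          change (if Tri (∑ m ∈ A, q0 G S I β m) then x else 1) = _
          split_ifs <;> ring
        simp only [e1]
        rw [Finset.sum_add_distrib, Finset.sum_const, Finset.card_univ, Fintype.card_finset,
          Fintype.card_coe, ← Finset.sum_filter, Finset.sum_const, nsmul_eq_mul, nsmul_eq_mul]
        push_cast
        have := mul_le_mul_of_nonneg_right hcard (by linarith : (0 : ℝ) ≤ x - 1)
        nlinarith
      · simp only [hF, hFn, if_neg hex, Finset.sum_const_zero]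
        positivity) (by linarith)
  have hev : ∀ G ∈ Finset.univ.filter (Ev S I β t), x ^ t ≤
      x ^ I.card * ∏ i : X, F G (row G S i) := by
    intro G hG
    rw [Finset.mem_filter] at hG
    obtain ⟨-, hex, hcard⟩ := hG
    change t ≤ (Finset.univ.filter
      (fun i : X => Tri (∑ m ∈ row G S i, q0 G S I β m))).card + I.card at hcard
    have hprod : ∏ i : X, F G (row G S i) =
        x ^ (Finset.univ.filter
          (fun i : X => Tri (∑ m ∈ row G S i, q0 G S I β m))).card := by
      simp only [hF, hFn, if_pos hex]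
      change ∏ i : X, (if Tri (∑ m ∈ row G S i, q0 G S I β m) then x else 1) = _
      rw [Finset.prod_ite, Finset.prod_const, Finset.prod_const_one, mul_one]
    rw [hprod, ← pow_add]
    apply pow_le_pow_right₀ hx
    omega
  calc ((Finset.univ.filter (Ev S I β t)).card : ℝ) * x ^ t
      = ∑ _G ∈ Finset.univ.filter (Ev S I β t), x ^ t := by
        rw [Finset.sum_const, nsmul_eq_mul]
    _ ≤ ∑ G ∈ Finset.univ.filter (Ev S I β t), x ^ I.card * ∏ i : X, F G (row G S i) :=
        Finset.sum_le_sum hev
    _ ≤ ∑ G : SimpleGraph V, x ^ I.card * ∏ i : X, F G (row G S i) := by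
        apply Finset.sum_le_sum_of_subset_of_nonneg (Finset.subset_univ _)
        intro G _ _
        apply mul_nonneg (by positivity)
        apply Finset.prod_nonneg
        intro i _
        simp only [hF, hFn]
        split_ifs <;> linarith
    _ = x ^ I.card * ∑ G : SimpleGraph V, ∏ i : X, F G (row G S i) := by
        rw [Finset.mul_sum]
    _ ≤ x ^ I.card * ((1 + ρ * (x - 1)) ^ X.card * Nat.card (SimpleGraph V)) :=
        mul_le_mul_of_nonneg_left hmain (by positivity)
    _ ≤ x ^ I.card * ((1 + ρ * (x - 1)) ^ Fintype.card V * Nat.card (SimpleGraph V)) := by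
        apply mul_le_mul_of_nonneg_left _ (by positivity)
        apply mul_le_mul_of_nonneg_right _ (by positivity)
        exact pow_le_pow_right₀ hB1 (Finset.card_le_univ X)
    _ = _ := by ring

/-- From a weight vector to an event. -/
lemma exists_event (G : SimpleGraph V) (S T : Finset V) (hST : Disjoint S T) (q : S → ℝ)
    (hq : ∀ m, q m ≠ 0 ∧ |q m| < 1) (hT : ∀ i ∈ T, Tri (∑ m ∈ row G S i, q m)) (t : ℕ)
    (ht : t ≤ T.card) :
    ∃ I : Finset V, I ⊆ T ∧ I.card ≤ S.card ∧
      ∃ β : I → ℤ, (∀ i, β i ∈ ({-1, 0, 1} : Finset ℤ)) ∧ Ev S I β t G := by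
  classical
  let Λ : (S → ℝ) →ₗ[ℝ] (V → ℝ) :=
    { toFun := fun d i => if i ∈ T then ∑ m ∈ row G S i, d m else 0
      map_add' := by
        intro d d'
        funext i
        simp only [Pi.add_apply]
        split_ifs
        · rw [Finset.sum_add_distrib]
        · simp
      map_smul' := by
        intro c d
        funext i
        simp only [Pi.smul_apply, smul_eq_mul, RingHom.id_apply]
        split_ifs
        · rw [Finset.mul_sum]
        · simp }
  have hΛ : ∀ d i, Λ d i = if i ∈ T then ∑ m ∈ row G S i, d m else 0 := fun _ _ => rfl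
  obtain ⟨I, hIT, hI1, hI2⟩ := exists_pivots (LinearMap.range Λ) T (by
    rintro u ⟨d, rfl⟩ h
    funext i
    by_cases hi : i ∈ T
    · exact h i hi
    · rw [hΛ, if_neg hi]; rfl)
  have hIcard : I.card ≤ S.card := by
    refine (card_le_finrank _ I hI2).trans ?_
    refine (LinearMap.finrank_range_le Λ).trans ?_
    simp
  have hval : ∀ i ∈ T, ∃ b : ℤ, b ∈ ({-1, 0, 1} : Finset ℤ) ∧ ∑ m ∈ row G S i, q m = b := by
    intro i hi
    rcases hT i hi with h | h | h
    · exact ⟨-1, by simp, by rw [h]; simp⟩
    · exact ⟨0, by simp, by rw [h]; simp⟩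
    · exact ⟨1, by simp, by rw [h]; simp⟩
  choose! b hb using hval
  refine ⟨I, hIT, hIcard, fun i => b i, fun i => (hb i (hIT i.2)).1, ?_⟩
  have hadm : Adm G S I (fun i => b i) q := ⟨hq, fun i => (hb i (hIT i.2)).2⟩
  have hex : ∃ q, Adm G S I (fun i => b i) q := ⟨q, hadm⟩
  refine ⟨hex, ?_⟩
  have hq0 : Adm G S I (fun i => b i) (q0 G S I (fun i => b i)) := Classical.epsilon_spec hex
  have hsame : ∀ i ∈ T, ∑ m ∈ row G S i, q0 G S I (fun i => b i) m = ∑ m ∈ row G S i, q m := by
    have hz := hI1 (Λ (q0 G S I (fun i => b i) - q)) ⟨_, rfl⟩ (by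
      intro j hj
      rw [hΛ, if_pos (hIT hj)]
      simp only [Pi.sub_apply, Finset.sum_sub_distrib]
      rw [hq0.2 ⟨j, hj⟩, hadm.2 ⟨j, hj⟩, sub_self])
    intro i hi
    have h1 := congrFun hz i
    rw [hΛ, if_pos hi] at h1
    simp only [Pi.sub_apply, Finset.sum_sub_distrib, Pi.zero_apply] at h1
    linarith
  -- the rows of `T \ I` are good
  have hsub : (T \ I).card ≤ (Finset.univ.filter
      (fun i : ((S ∪ I)ᶜ : Finset V) => Tri (∑ m ∈ row G S i, q0 G S I (fun i => b i) m))).card := by
    have hsub' : T \ I ⊆ (Finset.univ.filter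
      (fun i : ((S ∪ I)ᶜ : Finset V) =>
        Tri (∑ m ∈ row G S i, q0 G S I (fun i => b i) m))).map
          ⟨Subtype.val, Subtype.val_injective⟩ := by
      intro i hi
      have hi' := Finset.mem_sdiff.mp hi
      have hmem : i ∈ (S ∪ I)ᶜ := by
        rw [Finset.mem_compl, Finset.mem_union]
        rintro (h | h)
        · exact Finset.disjoint_left.mp hST h hi'.1
        · exact hi'.2 h
      rw [Finset.mem_map]
      refine ⟨⟨i, hmem⟩, ?_, rfl⟩
      rw [Finset.mem_filter]
      refine ⟨Finset.mem_univ _, ?_⟩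
      rw [hsame i hi'.1]
      exact hT i hi'.1
    have := Finset.card_le_card hsub'
    rwa [Finset.card_map] at this
  have h2 := Finset.card_sdiff_add_card_eq_card hIT
  omega

end Pool.Agent.H71.Haemers
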