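import Mathlib

set_option autoImplicit false
set_option linter.unusedSectionVars false

namespace Pool.Agent.H71.Haemers

open Finset

/-- Littlewood–Offord–Erdős: at most a middle binomial coefficient number of subsets have a given
weight, if all weights are nonzero. -/
lemma littlewood_offord {α : Type*} [Fintype α] [DecidableEq α] (q : α → ℝ) (hq : ∀ a, q a ≠ 0)
    (c : ℝ) :
    ((Finset.univ : Finset (Finset α)).filter (fun A => ∑ a ∈ A, q a = c)).card ≤
      (Fintype.card α).choose (Fintype.card α / 2) := by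
  classical
  set N : Finset α := Finset.univ.filter (fun a => q a < 0) with hN
  set 𝒜 : Finset (Finset α) := ((Finset.univ : Finset (Finset α)).filter
    (fun A => ∑ a ∈ A, q a = c)).image (fun A => symmDiff A N) with h𝒜
  have hinj : Function.Injective (fun A : Finset α => symmDiff A N) :=
    fun A B h => symmDiff_left_injective N h
  have hcard : 𝒜.card = ((Finset.univ : Finset (Finset α)).filter
      (fun A => ∑ a ∈ A, q a = c)).card := Finset.card_image_of_injective _ hinj
  -- weight of the symmetric difference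
  have hw : ∀ A : Finset α, ∑ a ∈ symmDiff A N, |q a| = ∑ a ∈ A, q a - ∑ a ∈ N, q a := by
    intro A
    have e1 : ∑ a ∈ symmDiff A N, |q a| =
        ∑ a, if a ∈ symmDiff A N then |q a| else 0 := by
      rw [Finset.sum_ite_mem, Finset.univ_inter]
    have e2 : ∑ a ∈ A, q a = ∑ a, if a ∈ A then q a else 0 := by
      rw [Finset.sum_ite_mem, Finset.univ_inter]
    have e3 : ∑ a ∈ N, q a = ∑ a, if a ∈ N then q a else 0 := by
      rw [Finset.sum_ite_mem, Finset.univ_inter]
    rw [e1, e2, e3, ← Finset.sum_sub_distrib]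
    refine Finset.sum_congr rfl fun a _ => ?_
    have hNa : a ∈ N ↔ q a < 0 := by rw [hN, Finset.mem_filter]; simp
    by_cases hA : a ∈ A <;> by_cases hn : a ∈ N
    · simp [Finset.mem_symmDiff, hA, hn]
    · have : 0 ≤ q a := not_lt.mp (fun h => hn (hNa.mpr h))
      simp [Finset.mem_symmDiff, hA, hn, abs_of_nonneg this]
    · have : q a < 0 := hNa.mp hn
      simp [Finset.mem_symmDiff, hA, hn, abs_of_neg this]
    · simp [Finset.mem_symmDiff, hA, hn]
  have hanti : IsAntichain (· ⊆ ·) (𝒜 : Set (Finset α)) := by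
    intro A' hA' B' hB' hne hsub
    rw [h𝒜, Finset.coe_image] at hA' hB'
    obtain ⟨A, hA, rfl⟩ := hA'
    obtain ⟨B, hB, rfl⟩ := hB'
    rw [Finset.mem_coe, Finset.mem_filter] at hA hB
    simp only at hne hsub
    have hwA := hw A
    have hwB := hw B
    rw [hA.2] at hwA
    rw [hB.2] at hwB
    have hss : symmDiff A N ⊂ symmDiff B N := Finset.ssubset_iff_subset_ne.mpr ⟨hsub, hne⟩
    have : ∑ a ∈ symmDiff A N, |q a| < ∑ a ∈ symmDiff B N, |q a| := by
      obtain ⟨a, haB, haA⟩ := Finset.exists_of_ssubset hss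
      exact Finset.sum_lt_sum_of_subset hsub haB haA (abs_pos.mpr (hq a))
        (fun _ _ _ => abs_nonneg _)
    linarith
  rw [← hcard]
  exact hanti.sperner

lemma centralBinom_sq_le (m : ℕ) :
    ((m.centralBinom : ℝ)) ^ 2 * (2 * m + 1) ≤ ((4 : ℝ) ^ m) ^ 2 := by
  induction m with
  | zero => simp
  | succ m ih =>
    have h := Nat.succ_mul_centralBinom_succ m
    have h' : ((m : ℝ) + 1) * ((m + 1).centralBinom : ℝ) = 2 * (2 * m + 1) * m.centralBinom := by
      exact_mod_cast h
    have hm : (0 : ℝ) < (m : ℝ) + 1 := by positivity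
    have e1 : (((m + 1).centralBinom : ℝ)) = 2 * (2 * m + 1) * m.centralBinom / (m + 1) := by
      rw [eq_div_iff hm.ne']; linarith
    rw [e1]
    push_cast
    rw [div_pow, div_mul_eq_mul_div, div_le_iff₀ (by positivity)]
    have h4 : ((4 : ℝ) ^ (m + 1)) ^ 2 = 16 * ((4 : ℝ) ^ m) ^ 2 := by
      rw [pow_succ]; ring
    rw [h4]
    have h5 : (0 : ℝ) ≤ (m.centralBinom : ℝ) ^ 2 := by positivity
    have h6 : (2 * (2 * (m : ℝ) + 1) * m.centralBinom) ^ 2 * (2 * (m + 1) + 1) =
        4 * (2 * m + 1) * (2 * m + 3) * ((m.centralBinom : ℝ) ^ 2 * (2 * m + 1)) := by ring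
    rw [h6]
    have h7 : 4 * (2 * (m : ℝ) + 1) * (2 * m + 3) ≤ 16 * (m + 1) ^ 2 := by nlinarith
    calc 4 * (2 * (m : ℝ) + 1) * (2 * m + 3) * ((m.centralBinom : ℝ) ^ 2 * (2 * m + 1))
        ≤ 16 * (m + 1) ^ 2 * ((m.centralBinom : ℝ) ^ 2 * (2 * m + 1)) :=
          mul_le_mul_of_nonneg_right h7 (by positivity)
      _ ≤ 16 * (m + 1) ^ 2 * ((4 : ℝ) ^ m) ^ 2 :=
          mul_le_mul_of_nonneg_left ih (by positivity)
      _ = _ := by ring

lemma choose_middle_sq_le (s : ℕ) :
    ((s.choose (s / 2) : ℝ)) ^ 2 * (s + 1) ≤ ((2 : ℝ) ^ s) ^ 2 := by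
  rcases Nat.even_or_odd' s with ⟨m, rfl | rfl⟩
  · have h := centralBinom_sq_le m
    rw [Nat.centralBinom_eq_two_mul_choose] at h
    rw [Nat.mul_div_cancel_left _ (by norm_num)]
    push_cast
    have e : (2 : ℝ) ^ (2 * m) = 4 ^ m := by rw [pow_mul]; norm_num
    rw [e]
    exact h
  · have h := centralBinom_sq_le (m + 1)
    have e1 : (2 * m + 1) / 2 = m := by omega
    rw [e1]
    have e2 : (m + 1).centralBinom = 2 * (2 * m + 1).choose m := by
      rw [Nat.centralBinom_eq_two_mul_choose, show 2 * (m + 1) = (2 * m + 1) + 1 by ring,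
        Nat.choose_succ_succ, Nat.choose_symm_half]
      ring
    rw [e2] at h
    push_cast at h ⊢
    have e3 : (4 : ℝ) ^ (m + 1) = 2 * 2 ^ (2 * m + 1) := by
      rw [show (4 : ℝ) = 2 ^ 2 by norm_num, ← pow_mul, ← pow_succ']
      congr 1
    rw [e3] at h
    have h5 : (0 : ℝ) ≤ ((2 * m + 1).choose m : ℝ) ^ 2 := by positivity
    nlinarith

/-- the number of subsets with weight in `{-1,0,1}` is a small proportion. -/
lemma card_good_rows_le {α : Type*} [Fintype α] [DecidableEq α] (q : α → ℝ)
    (hq : ∀ a, q a ≠ 0) :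
    (((Finset.univ : Finset (Finset α)).filter
      (fun A => ∑ a ∈ A, q a = -1 ∨ ∑ a ∈ A, q a = 0 ∨ ∑ a ∈ A, q a = 1)).card : ℝ) ≤
      3 / Real.sqrt (Fintype.card α + 1) * 2 ^ (Fintype.card α) := by
  classical
  set s := Fintype.card α with hs
  have h1 : ((Finset.univ : Finset (Finset α)).filter
      (fun A => ∑ a ∈ A, q a = -1 ∨ ∑ a ∈ A, q a = 0 ∨ ∑ a ∈ A, q a = 1)).card ≤
      3 * s.choose (s / 2) := by
    have hsub : (Finset.univ : Finset (Finset α)).filter
      (fun A => ∑ a ∈ A, q a = -1 ∨ ∑ a ∈ A, q a = 0 ∨ ∑ a ∈ A, q a = 1) ⊆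
      ((Finset.univ : Finset (Finset α)).filter (fun A => ∑ a ∈ A, q a = -1)) ∪
      (((Finset.univ : Finset (Finset α)).filter (fun A => ∑ a ∈ A, q a = 0)) ∪
      ((Finset.univ : Finset (Finset α)).filter (fun A => ∑ a ∈ A, q a = 1))) := by
      intro A
      simp only [Finset.mem_filter, Finset.mem_union, Finset.mem_univ, true_and]
      exact id
    have := Finset.card_le_card hsub
    have h2 := Finset.card_union_le ((Finset.univ : Finset (Finset α)).filter (fun A => ∑ a ∈ A, q a = -1)) (((Finset.univ : Finset (Finset α)).filter (fun A => ∑ a ∈ A, q a = 0)) ∪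
      ((Finset.univ : Finset (Finset α)).filter (fun A => ∑ a ∈ A, q a = 1)))
    have h3 := Finset.card_union_le ((Finset.univ : Finset (Finset α)).filter (fun A => ∑ a ∈ A, q a = 0))
      ((Finset.univ : Finset (Finset α)).filter (fun A => ∑ a ∈ A, q a = 1))
    have a1 := littlewood_offord q hq (-1)
    have a2 := littlewood_offord q hq 0
    have a3 := littlewood_offord q hq 1
    rw [← hs] at a1 a2 a3
    omega
  have h2 := choose_middle_sq_le s
  have hpos : (0 : ℝ) < (s : ℝ) + 1 := by positivity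
  have h3 : (s.choose (s / 2) : ℝ) * Real.sqrt (s + 1) ≤ 2 ^ s := by
    apply le_of_pow_le_pow_left₀ (n := 2) (by norm_num) (by positivity)
    rw [mul_pow, Real.sq_sqrt hpos.le]
    exact h2
  have h4 : (s.choose (s / 2) : ℝ) ≤ 2 ^ s / Real.sqrt (s + 1) := by
    rw [le_div_iff₀ (Real.sqrt_pos.mpr hpos)]
    exact h3
  calc _ ≤ ((3 * s.choose (s / 2) : ℕ) : ℝ) := by exact_mod_cast h1
    _ = 3 * (s.choose (s / 2) : ℝ) := by push_cast; ring
    _ ≤ 3 * (2 ^ s / Real.sqrt (s + 1)) := by linarith
    _ = _ := by ring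

/-- at most half of the subsets have weight in `{-1,0,1}` if some weight lies strictly between
`0` and `1` in absolute value. -/
lemma card_good_rows_half {α : Type*} [Fintype α] [DecidableEq α] (q : α → ℝ) (a0 : α)
    (h0 : q a0 ≠ 0) (h1 : |q a0| < 1) :
    2 * ((Finset.univ : Finset (Finset α)).filter
      (fun A => ∑ a ∈ A, q a = -1 ∨ ∑ a ∈ A, q a = 0 ∨ ∑ a ∈ A, q a = 1)).card ≤
      2 ^ (Fintype.card α) := by
  classical
  set F := (Finset.univ : Finset (Finset α)).filter
      (fun A => ∑ a ∈ A, q a = -1 ∨ ∑ a ∈ A, q a = 0 ∨ ∑ a ∈ A, q a = 1) with hF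
  have hdisj : Disjoint F (F.image (fun A => symmDiff A {a0})) := by
    rw [Finset.disjoint_left]
    intro A hA hA'
    rw [Finset.mem_image] at hA'
    obtain ⟨B, hB, rfl⟩ := hA'
    rw [hF, Finset.mem_filter] at hA hB
    have hrel : ∑ a ∈ symmDiff B {a0}, q a = ∑ a ∈ B, q a + q a0 ∨
        ∑ a ∈ symmDiff B {a0}, q a = ∑ a ∈ B, q a - q a0 := by
      by_cases hmem : a0 ∈ B
      · right
        have : symmDiff B {a0} = B.erase a0 := by
          ext x
          simp only [Finset.mem_symmDiff, Finset.mem_singleton, Finset.mem_erase]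
          constructor
          · rintro (⟨g1, g2⟩ | ⟨g1, g2⟩)
            · exact ⟨g2, g1⟩
            · rw [g1] at g2; exact absurd hmem g2
          · rintro ⟨g1, g2⟩
            exact Or.inl ⟨g2, g1⟩
        rw [this, ← Finset.add_sum_erase B q hmem]
        ring
      · left
        have : symmDiff B {a0} = insert a0 B := by
          ext x
          simp only [Finset.mem_symmDiff, Finset.mem_singleton, Finset.mem_insert]
          constructor
          · rintro (⟨g1, g2⟩ | ⟨g1, g2⟩)
            · exact Or.inr g1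
            · exact Or.inl g1
          · rintro (g1 | g1)
            · rw [g1]; exact Or.inr ⟨rfl, hmem⟩
            · refine Or.inl ⟨g1, ?_⟩
              intro g2
              rw [g2] at g1
              exact hmem g1
        rw [this, Finset.sum_insert hmem]
        ring
    have hlt := abs_lt.mp h1
    rcases hrel with h | h <;> rw [h] at hA <;> rcases hA.2 with h2 | h2 | h2 <;>
      rcases hB.2 with h3 | h3 | h3 <;> rw [h3] at h2
    all_goals first
      | (apply h0; linarith)
      | (exfalso; linarith [hlt.1, hlt.2])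
  have hcard : (F.image (fun A => symmDiff A {a0})).card = F.card :=
    Finset.card_image_of_injective _ (fun A B h => symmDiff_left_injective {a0} h)
  have := Finset.card_le_univ (F ∪ F.image (fun A => symmDiff A {a0}))
  rw [Finset.card_union_of_disjoint hdisj, hcard, Fintype.card_finset] at this
  omega

end Pool.Agent.H71.Haemers
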