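import Pool.Agent.H71.Haemers.Count
import Pool.Agent.H71.Haemers.LO

set_option autoImplicit false
set_option linter.unusedSectionVars false

namespace Pool.Agent.H71.Haemers

open Finset

variable {V : Type*} [Fintype V] [DecidableEq V]

open Classical in
/-- neighbours of `i` inside `S` -/
noncomputable def row (G : SimpleGraph V) (S : Finset V) (i : V) : Finset S :=
  Finset.univ.filter (fun m : S => G.Adj i m)

lemma mem_row {G : SimpleGraph V} {S : Finset V} {i : V} {m : S} :
    m ∈ row G S i ↔ G.Adj i m := by
  classical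
  unfold row
  rw [Finset.mem_filter]
  simp

/-- the edges between `X` and `S` -/
def crossEdges (X S : Finset V) : Finset (Sym2 V) := (X ×ˢ S).image (fun x => s(x.1, x.2))

lemma mem_crossEdges {X S : Finset V} {i j : V} :
    s(i, j) ∈ crossEdges X S ↔ (i ∈ X ∧ j ∈ S) ∨ (j ∈ X ∧ i ∈ S) := by
  unfold crossEdges
  rw [Finset.mem_image]
  constructor
  · rintro ⟨⟨a, b⟩, hab, he⟩
    rw [Finset.mem_product] at hab
    simp only [Sym2.eq_iff] at he
    rcases he with ⟨rfl, rfl⟩ | ⟨rfl, rfl⟩
    · exact Or.inl hab
    · exact Or.inr hab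
  · rintro (h | h)
    · exact ⟨(i, j), Finset.mem_product.mpr h, rfl⟩
    · exact ⟨(j, i), Finset.mem_product.mpr h, Sym2.eq_swap⟩

lemma card_crossEdges {X S : Finset V} (h : Disjoint X S) :
    (crossEdges X S).card = X.card * S.card := by
  unfold crossEdges
  rw [Finset.card_image_of_injOn, Finset.card_product]
  rintro ⟨a, j⟩ h1 ⟨a', j'⟩ h2 he
  rw [Finset.mem_coe, Finset.mem_product] at h1 h2
  simp only [Sym2.eq_iff] at he
  rcases he with ⟨rfl, rfl⟩ | ⟨rfl, rfl⟩
  · rfl
  · exact absurd h2.2 (Finset.disjoint_left.mp h h1.1)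

/-- Product counting: if for each graph `G` (depending only on edges outside `X × S`) we have a
nonnegative weight on subsets of `S` with total mass at most `B`, then the average over all graphs
of the product over `X` of the weights of the rows is at most `(B / 2 ^ |S|) ^ |X|`. -/
lemma sum_prod_le (S X : Finset V) (hXS : Disjoint X S) (F : SimpleGraph V → Finset S → ℝ)
    (hF0 : ∀ G A, 0 ≤ F G A)
    (hF : ∀ G G' : SimpleGraph V, G.deleteEdges (crossEdges X S : Set (Sym2 V)) =
      G'.deleteEdges (crossEdges X S : Set (Sym2 V)) → F G = F G')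
    (B : ℝ) (hB : ∀ G, ∑ A, F G A ≤ B * 2 ^ S.card) (hB0 : 0 ≤ B) :
    ∑ G : SimpleGraph V, ∏ i : X, F G (row G S i) ≤ B ^ X.card * Nat.card (SimpleGraph V) := by
  classical
  set Z := crossEdges X S with hZ
  set π : SimpleGraph V → SimpleGraph V := fun G => G.deleteEdges (Z : Set (Sym2 V)) with hπ
  set 𝒩 := (Finset.univ : Finset (SimpleGraph V)).image π with h𝒩
  have hππ : ∀ G, π (π G) = π G := by
    intro G
    apply SimpleGraph.edgeSet_injective
    simp only [hπ, SimpleGraph.edgeSet_deleteEdges, Set.sdiff_sdiff, Set.union_self]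
  have hfib : ∀ G0 ∈ 𝒩, ∑ G ∈ Finset.univ.filter (fun G => π G = G0), ∏ i : X, F G (row G S i) ≤
      (B * 2 ^ S.card) ^ X.card := by
    intro G0 hG0
    have h1 : ∑ G ∈ Finset.univ.filter (fun G => π G = G0), ∏ i : X, F G (row G S i) =
        ∑ G ∈ Finset.univ.filter (fun G => π G = G0), ∏ i : X, F G0 (row G S i) := by
      refine Finset.sum_congr rfl fun G hG => ?_
      rw [Finset.mem_filter] at hG
      have : F G = F G0 := by
        apply hF
        change π G = π G0
        rw [← hG.2, hππ]
      rw [this]
    rw [h1]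
    have hinj : Set.InjOn (fun (G : SimpleGraph V) (i : X) => row G S i)
        (Finset.univ.filter (fun G => π G = G0) : Finset (SimpleGraph V)) := by
      intro G hG G' hG' he
      rw [Finset.mem_coe, Finset.mem_filter] at hG hG'
      have hout : G.edgeSet \ (Z : Set (Sym2 V)) = G'.edgeSet \ (Z : Set (Sym2 V)) := by
        have : π G = π G' := by rw [hG.2, hG'.2]
        have := congrArg SimpleGraph.edgeSet this
        simpa only [hπ, SimpleGraph.edgeSet_deleteEdges] using this
      have hrow : ∀ i ∈ X, ∀ m ∈ S, (G.Adj i m ↔ G'.Adj i m) := by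
        intro i hi m hm
        have h1 := congrFun he ⟨i, hi⟩
        simp only at h1
        have h2 := Finset.ext_iff.mp h1 ⟨m, hm⟩
        rw [mem_row, mem_row] at h2
        exact h2
      ext i j
      by_cases hij : s(i, j) ∈ Z
      · rw [hZ, mem_crossEdges] at hij
        rcases hij with h | h
        · exact hrow i h.1 j h.2
        · rw [G.adj_comm, G'.adj_comm]
          exact hrow j h.1 i h.2
      · have := Set.ext_iff.mp hout s(i, j)
        simp only [Set.mem_sdiff, SimpleGraph.mem_edgeSet, Finset.mem_coe, hij, not_false_eq_true,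
          and_true] at this
        exact this
    calc ∑ G ∈ Finset.univ.filter (fun G => π G = G0), ∏ i : X, F G0 (row G S i)
        = ∑ φ ∈ (Finset.univ.filter (fun G => π G = G0)).image
            (fun (G : SimpleGraph V) (i : X) => row G S i), ∏ i : X, F G0 (φ i) := by
          rw [Finset.sum_image hinj]
      _ ≤ ∑ φ : X → Finset S, ∏ i : X, F G0 (φ i) := by
          apply Finset.sum_le_sum_of_subset_of_nonneg (Finset.subset_univ _)
          intro φ _ _
          exact Finset.prod_nonneg fun i _ => hF0 _ _
      _ = ∏ _i : X, ∑ A : Finset S, F G0 A := by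
          rw [Finset.prod_univ_sum]
          simp
      _ ≤ ∏ _i : X, (B * 2 ^ S.card) := by
          apply Finset.prod_le_prod
          · intro _ _; exact Finset.sum_nonneg fun A _ => hF0 _ _
          · intro _ _; exact hB G0
      _ = _ := by rw [Finset.prod_const, Finset.card_univ, Fintype.card_coe]
  have hcount : 𝒩.card * 2 ^ (X.card * S.card) ≤ Nat.card (SimpleGraph V) := by
    rw [← card_crossEdges hXS]
    apply card_mul_two_pow_le
    · intro e
      induction e with
      | _ i j =>
        intro he hd
        rw [mem_crossEdges] at he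
        rw [Sym2.mk_isDiag_iff] at hd
        subst hd
        rcases he with h | h <;> exact Finset.disjoint_left.mp hXS h.1 h.2
    · intro G hG G' hG' he
      rw [h𝒩, Finset.mem_image] at hG hG'
      obtain ⟨G1, -, rfl⟩ := hG
      obtain ⟨G1', -, rfl⟩ := hG'
      have e1 : (π (π G1)).edgeSet = (π (π G1')).edgeSet := by
        simp only [hπ, SimpleGraph.edgeSet_deleteEdges] at he ⊢
        exact he
      rw [hππ, hππ] at e1
      exact SimpleGraph.edgeSet_injective e1
  calc ∑ G : SimpleGraph V, ∏ i : X, F G (row G S i)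
      = ∑ G0 ∈ 𝒩, ∑ G ∈ Finset.univ.filter (fun G => π G = G0), ∏ i : X, F G (row G S i) := by
        exact (Finset.sum_fiberwise_of_maps_to (g := π)
          (fun G _ => Finset.mem_image_of_mem _ (Finset.mem_univ G)) _).symm
    _ ≤ ∑ _G0 ∈ 𝒩, (B * 2 ^ S.card) ^ X.card := Finset.sum_le_sum hfib
    _ = B ^ X.card * (𝒩.card * 2 ^ (X.card * S.card)) := by
        rw [Finset.sum_const, nsmul_eq_mul, mul_pow, ← pow_mul, mul_comm S.card X.card]
        ring
    _ ≤ B ^ X.card * Nat.card (SimpleGraph V) := by
        apply mul_le_mul_of_nonneg_left _ (by positivity)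
        exact_mod_cast hcount

end Pool.Agent.H71.Haemers
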