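import Pool.Agent.H71.Haemers.Level

set_option autoImplicit false
set_option linter.unusedSectionVars false

namespace Pool.Agent.H71.Haemers

open Finset Matrix

lemma adjF_cast {V : Type*} {K : Type*} [Ring K] (G : SimpleGraph V) (i j : V) :
    ((adjF ℤ G i j : ℤ) : K) = adjF K G i j := by
  unfold adjF
  split_ifs <;> simp

lemma mono_of_int {n : ℕ} (Q : Matrix (Fin n) (Fin n) ℚ) (hQ : Qᵀ * Q = 1)
    (hint : ∀ i j, ∃ z : ℤ, Q i j = z) : ∀ j, ∃ i, ∀ i', i' ≠ i → Q i' j = 0 := by
  intro j
  choose z hz using hint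
  have h1 : ∑ i, z i j ^ 2 = 1 := by
    have := congrFun (congrFun hQ j) j
    rw [Matrix.mul_apply, Matrix.one_apply_eq] at this
    have h2 : ((∑ i, z i j ^ 2 : ℤ) : ℚ) = 1 := by
      push_cast
      rw [← this]
      refine Finset.sum_congr rfl fun i _ => ?_
      rw [Matrix.transpose_apply, hz i j]
      ring
    exact_mod_cast h2
  by_contra hcon
  push Not at hcon
  have hne : ∃ i, z i j ≠ 0 := by
    by_contra h
    push Not at h
    simp [h] at h1
  obtain ⟨i, hi⟩ := hne
  obtain ⟨i', hi', hi'0⟩ := hcon i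
  have hz' : z i' j ≠ 0 := by
    intro h
    apply hi'0
    rw [hz, h]
    simp
  have : z i j ^ 2 + z i' j ^ 2 ≤ ∑ i, z i j ^ 2 := by
    rw [← Finset.sum_pair (f := fun i => z i j ^ 2) hi'.symm]
    exact Finset.sum_le_sum_of_subset_of_nonneg (Finset.subset_univ _)
      (fun _ _ _ => sq_nonneg _)
  have h3 : 0 < z i j ^ 2 := by positivity
  have h4 : 0 < z i' j ^ 2 := by positivity
  omega

open Classical in
lemma exists_good (n m : ℕ) (hmn : m ≤ n) (G H : SimpleGraph (Fin n))
    (Q : Matrix (Fin n) (Fin n) ℚ) (ℓ : ℕ) (hℓ : 0 < ℓ)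
    (hint : ∀ i j, ∃ z : ℤ, (ℓ : ℚ) * Q i j = z) (hQ : Qᵀ * Q = 1)
    (hGH : Qᵀ * G.adjMatrix ℚ * Q = H.adjMatrix ℚ) (hiso : IsEmpty (G ≃g H))
    (hm : ℓ ^ 2 ≤ m) :
    ∃ p ∈ Finset.range (n + 1), ∃ r ∈ Finset.Icc 1 n,
      ∃ f ∈ Fintype.piFinset (fun _ : Fin r => shortVec (Fin n) m), Good n p r f G := by
  have hex : ∃ k : ℕ, 0 < k ∧ ∀ i j, ∃ z : ℤ, (k : ℚ) * Q i j = z := ⟨ℓ, hℓ, hint⟩
  obtain ⟨h0pos, h0int⟩ := Nat.find_spec hex
  have h0min := fun {k : ℕ} => Nat.find_min (m := k) hex
  have h0le : Nat.find hex ≤ ℓ := Nat.find_min' hex ⟨hℓ, hint⟩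
  set k := Nat.find hex with hk
  have hQQ : Q * Qᵀ = 1 := mul_eq_one_comm.mp hQ
  have hAQ : G.adjMatrix ℚ * Q = Q * H.adjMatrix ℚ := by
    rw [← hGH, ← Matrix.mul_assoc, ← Matrix.mul_assoc, hQQ, Matrix.one_mul]
  -- `k ≠ 1`
  have hk1 : k ≠ 1 := by
    intro h1
    apply hiso.false
    refine (iso_of_monomial (K := ℚ) G H Q hQ (mono_of_int Q hQ ?_) ?_).some
    · intro i j
      obtain ⟨z, hz⟩ := h0int i j
      rw [h1] at hz
      exact ⟨z, by simpa using hz⟩
    · intro j l
      have := congrFun (congrFun hGH j) l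
      rw [SimpleGraph.adjMatrix_apply] at this
      unfold adjF
      rw [← this, Matrix.mul_apply]
      simp only [Matrix.mul_apply, SimpleGraph.adjMatrix_apply, Matrix.transpose_apply,
        Finset.sum_mul]
      rw [Finset.sum_comm]
  have hk2 : 2 ≤ k := by omega
  have hp : (Nat.minFac k).Prime := Nat.minFac_prime hk1
  have : Fact (Nat.minFac k).Prime := ⟨hp⟩
  set p := Nat.minFac k with hpdef
  have hpk : p ∣ k := Nat.minFac_dvd k
  choose M hM using h0int
  -- some entry is not divisible by `p`
  have hnd : ∃ i j, ¬ (p : ℤ) ∣ M i j := by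
    by_contra hcon
    push Not at hcon
    obtain ⟨c, hc⟩ := hpk
    have hc0 : 0 < c := by
      rcases Nat.eq_zero_or_pos c with h | h
      · subst h; omega
      · exact h
    have hck : c < k := by
      rw [hc]
      have := hp.two_le
      nlinarith
    apply h0min hck
    refine ⟨hc0, fun i j => ?_⟩
    obtain ⟨w, hw⟩ := hcon i j
    refine ⟨w, ?_⟩
    have h1 := hM i j
    have h2 : ((k : ℕ) : ℚ) = (p : ℚ) * c := by
      have : ((p * c : ℕ) : ℚ) = (p : ℚ) * c := by push_cast; rfl
      rw [← this, ← hc]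
    rw [h2, hw] at h1
    push_cast at h1
    have hp0 : (p : ℚ) ≠ 0 := by
      have := hp.pos
      positivity
    have h3 : (p : ℚ) * (c * Q i j) = p * w := by rw [← h1]; ring
    exact mul_left_cancel₀ hp0 h3
  -- orthogonality of the columns
  have hcol : ∀ j l, ∑ i, M i j * M i l = if j = l then (k : ℤ) ^ 2 else 0 := by
    intro j l
    have h1 := congrFun (congrFun hQ j) l
    rw [Matrix.mul_apply, Matrix.one_apply] at h1
    have h2 : ((∑ i, M i j * M i l : ℤ) : ℚ) = ((if j = l then (k : ℤ) ^ 2 else 0 : ℤ) : ℚ) := by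
      push_cast
      simp only [← hM]
      have : ∀ i, (k : ℚ) * Q i j * (k * Q i l) = (k : ℚ) ^ 2 * (Qᵀ j i * Q i l) := by
        intro i; rw [Matrix.transpose_apply]; ring
      simp only [this]
      rw [← Finset.mul_sum, h1]
      split_ifs <;> simp
    exact_mod_cast h2
  -- the matrix identity `A M = M B`
  have hAM : ∀ i j, ∑ l, adjF ℤ G i l * M l j = ∑ l, M i l * adjF ℤ H l j := by
    intro i j
    have h1 := congrFun (congrFun hAQ i) j
    rw [Matrix.mul_apply, Matrix.mul_apply] at h1
    have h2 : ((∑ l, adjF ℤ G i l * M l j : ℤ) : ℚ) = ((∑ l, M i l * adjF ℤ H l j : ℤ) : ℚ) := by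
      push_cast
      simp only [← hM, adjF_cast]
      have e1 : ∀ l, adjF ℚ G i l * ((k : ℚ) * Q l j) = k * (G.adjMatrix ℚ i l * Q l j) := by
        intro l
        rw [SimpleGraph.adjMatrix_apply]
        unfold adjF
        ring
      have e2 : ∀ l, (k : ℚ) * Q i l * adjF ℚ H l j = k * (Q i l * H.adjMatrix ℚ l j) := by
        intro l
        rw [SimpleGraph.adjMatrix_apply]
        unfold adjF
        ring
      simp only [e1, e2]
      rw [← Finset.mul_sum, ← Finset.mul_sum, h1]
    exact_mod_cast h2
  -- columns modulo `p`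
  let c : Fin n → (Fin n → ZMod p) := fun j i => ((M i j : ℤ) : ZMod p)
  have hex2 := Submodule.exists_fun_fin_finrank_span_eq (ZMod p) (Set.range c)
  set U := Submodule.span (ZMod p) (Set.range c) with hU
  obtain ⟨f0, hf0, hspan, hli⟩ := hex2
  choose J hJ using hf0
  have hf0' : f0 = fun a => (fun i => ((M i (J a) : ℤ) : ZMod p)) := by
    funext a
    rw [← hJ a]
  have hkp : ((k : ℤ) : ZMod p) = 0 := by
    rw [Int.cast_natCast]
    exact (ZMod.natCast_eq_zero_iff k p).mpr hpk
  have hpn : p ≤ n := by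
    have h1 : p ≤ k := Nat.le_of_dvd (by omega) hpk
    have h2 : k ≤ k ^ 2 := by nlinarith
    have h3 : k ^ 2 ≤ ℓ ^ 2 := Nat.pow_le_pow_left h0le 2
    omega
  have hr1 : 1 ≤ Module.finrank (ZMod p) U := by
    rw [Nat.one_le_iff_ne_zero]
    intro h0
    have : U = ⊥ := Submodule.finrank_eq_zero.mp h0
    obtain ⟨i, j, hij⟩ := hnd
    have h1 : c j ∈ U := Submodule.subset_span ⟨j, rfl⟩
    rw [this, Submodule.mem_bot] at h1
    have h2 := congrFun h1 i
    apply hij
    exact (ZMod.intCast_zmod_eq_zero_iff_dvd _ _).mp h2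
  have hrn : Module.finrank (ZMod p) U ≤ n := by
    have := Submodule.finrank_le U
    simpa using this
  refine ⟨p, Finset.mem_range.mpr (by omega), Module.finrank (ZMod p) U,
    Finset.mem_Icc.mpr ⟨hr1, hrn⟩, fun a i => M i (J a), ?_, ⟨hp⟩, ?_⟩
  · rw [Fintype.mem_piFinset]
    intro a
    rw [mem_shortVec]
    have h1 := hcol (J a) (J a)
    rw [if_pos rfl] at h1
    have h2 : ∑ i, M i (J a) ^ 2 = (k : ℤ) ^ 2 := by
      rw [← h1]
      exact Finset.sum_congr rfl fun i _ => sq _
    rw [h2]
    have h3 : k ^ 2 ≤ ℓ ^ 2 := Nat.pow_le_pow_left h0le 2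
    exact_mod_cast h3.trans hm
  · rw [← hf0', hspan]
    refine ⟨rfl, ?_, ?_⟩
    · -- isotropic
      have hgen : ∀ j l, ∑ i, c j i * c l i = 0 := by
        intro j l
        have h1 := congrArg (fun x : ℤ => (x : ZMod p)) (hcol j l)
        push_cast at h1
        rw [show (∑ i, c j i * c l i) = ∑ i, ((M i j : ℤ) : ZMod p) * ((M i l : ℤ) : ZMod p) from rfl,
          h1]
        split_ifs
        · rw [Int.cast_natCast] at hkp
          rw [hkp]; simp
        · rfl
      intro u hu v hv
      induction hu using Submodule.span_induction with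
      | mem x hx =>
        obtain ⟨j, rfl⟩ := hx
        induction hv using Submodule.span_induction with
        | mem y hy =>
          obtain ⟨l, rfl⟩ := hy
          exact hgen j l
        | zero => simp
        | add y z _ _ hy hz =>
          simp only [Pi.add_apply, mul_add, Finset.sum_add_distrib, hy, hz, add_zero]
        | smul a y _ hy =>
          have : ∀ i, c j i * (a • y) i = a * (c j i * y i) := by
            intro i; simp only [Pi.smul_apply, smul_eq_mul]; ring
          simp only [this, ← Finset.mul_sum, hy, mul_zero]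
      | zero => simp
      | add x y _ _ hx hy =>
        simp only [Pi.add_apply, add_mul, Finset.sum_add_distrib, hx, hy, add_zero]
      | smul a x _ hx =>
        have : ∀ i, (a • x) i * v i = a * (x i * v i) := by
          intro i; simp only [Pi.smul_apply, smul_eq_mul]; ring
        simp only [this, ← Finset.mul_sum, hx, mul_zero]
    · -- invariant
      intro u hu
      induction hu using Submodule.span_induction with
      | mem x hx =>
        obtain ⟨j, rfl⟩ := hx
        have h1 : (fun i => ∑ l, adjF (ZMod p) G i l * c j l) =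
            ∑ l, adjF (ZMod p) H l j • c l := by
          funext i
          have h2 := congrArg (fun x : ℤ => (x : ZMod p)) (hAM i j)
          push_cast at h2
          simp only [adjF_cast] at h2
          rw [Finset.sum_apply]
          simp only [Pi.smul_apply, smul_eq_mul]
          rw [show (∑ l, adjF (ZMod p) G i l * c j l) =
            ∑ l, adjF (ZMod p) G i l * ((M l j : ℤ) : ZMod p) from rfl, h2]
          refine Finset.sum_congr rfl fun l _ => ?_
          rw [mul_comm]
        rw [h1]
        exact Submodule.sum_mem _ fun l _ => Submodule.smul_mem _ _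
          (Submodule.subset_span ⟨l, rfl⟩)
      | zero =>
        have : (fun i => ∑ j, adjF (ZMod p) G i j * (0 : Fin n → ZMod p) j) = 0 := by
          funext i; simp
        rw [this]
        exact Submodule.zero_mem _
      | add x y _ _ hx hy =>
        have : (fun i => ∑ j, adjF (ZMod p) G i j * (x + y) j) =
            (fun i => ∑ j, adjF (ZMod p) G i j * x j) +
              (fun i => ∑ j, adjF (ZMod p) G i j * y j) := by
          funext i
          simp only [Pi.add_apply, mul_add, Finset.sum_add_distrib]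
        rw [this]
        exact Submodule.add_mem _ hx hy
      | smul a x _ hx =>
        have : (fun i => ∑ j, adjF (ZMod p) G i j * (a • x) j) =
            a • (fun i => ∑ j, adjF (ZMod p) G i j * x j) := by
          funext i
          simp only [Pi.smul_apply, smul_eq_mul, Finset.mul_sum]
          refine Finset.sum_congr rfl fun l _ => ?_
          ring
        rw [this]
        exact Submodule.smul_mem _ _ hx

end Pool.Agent.H71.Haemers
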