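import Pool.Agent.H71.Haemers.Event

set_option autoImplicit false
set_option linter.unusedSectionVars false

namespace Pool.Agent.H71.Haemers

open Finset Matrix

variable {V : Type*} [Fintype V] [DecidableEq V]

open Classical in
/-- From a mate to a weight vector. -/
lemma mate_reduce (G H : SimpleGraph V) (Q : Matrix V V ℝ) (hQ : Qᵀ * Q = 1)
    (hGH : Qᵀ * G.adjMatrix ℝ * Q = H.adjMatrix ℝ) (hiso : IsEmpty (G ≃g H)) :
    ∃ (S T : Finset V) (q : S → ℝ), S.Nonempty ∧ Disjoint S T ∧
      (∀ m, q m ≠ 0 ∧ |q m| < 1) ∧ (∀ i ∈ T, Tri (∑ m ∈ row G S i, q m)) ∧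
      T.card = (Finset.univ.filter (fun j => ∃ i, ∀ i', i' ≠ i → Q i' j = 0)).card := by
  have hent : ∀ j k, (∑ i, ∑ l, Q i j * adjF ℝ G i l * Q l k) = adjF ℝ H j k := by
    intro j k
    have := congrFun (congrFun hGH j) k
    rw [SimpleGraph.adjMatrix_apply] at this
    unfold adjF
    rw [← this, Matrix.mul_apply]
    simp only [Matrix.mul_apply, SimpleGraph.adjMatrix_apply, Matrix.transpose_apply,
      Finset.sum_mul]
    rw [Finset.sum_comm]
  set J : Finset V := Finset.univ.filter (fun j => ∃ i, ∀ i', i' ≠ i → Q i' j = 0) with hJ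
  have hex : ∃ j0, j0 ∉ J := by
    by_contra hcon
    push Not at hcon
    exact hiso.false (iso_of_monomial (K := ℝ) G H Q hQ
      (fun j => (Finset.mem_filter.mp (hcon j)).2) hent).some
  obtain ⟨j0, hj0⟩ := hex
  have horth : ∀ j k, ∑ i, Q i j * Q i k = if j = k then 1 else 0 := by
    intro j k
    have := congrFun (congrFun hQ j) k
    rw [Matrix.mul_apply, Matrix.one_apply] at this
    simpa only [Matrix.transpose_apply] using this
  have hσ : ∀ j ∈ J, ∃ i, ∀ i', i' ≠ i → Q i' j = 0 := fun j hj => (Finset.mem_filter.mp hj).2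
  choose! σ hσ using hσ
  have hcol : ∀ j ∈ J, Q (σ j) j * Q (σ j) j = 1 := by
    intro j hj
    have := horth j j
    rw [if_pos rfl] at this
    rw [← this, Finset.sum_eq_single (σ j)]
    · intro i _ hi
      rw [hσ j hj i hi, mul_zero]
    · simp
  have hne : ∀ j ∈ J, Q (σ j) j ≠ 0 := by
    intro j hj h0
    have := hcol j hj
    rw [h0] at this
    simp at this
  have hother : ∀ j ∈ J, ∀ k, k ≠ j → Q (σ j) k = 0 := by
    intro j hj k hk
    have := horth j k
    rw [if_neg (Ne.symm hk), Finset.sum_eq_single (σ j)] at this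
    · rcases mul_eq_zero.mp this with h | h
      · exact absurd h (hne j hj)
      · exact h
    · intro i _ hi
      rw [hσ j hj i hi, zero_mul]
    · simp
  have hinj : Set.InjOn σ (J : Set V) := by
    intro j hj k hk hjk
    by_contra hjk'
    have := hother j hj k (Ne.symm hjk')
    rw [hjk] at this
    exact hne k hk this
  set S : Finset V := Finset.univ.filter (fun i => Q i j0 ≠ 0) with hS
  have hSmem : ∀ i, i ∈ S ↔ Q i j0 ≠ 0 := by
    intro i; rw [hS, Finset.mem_filter]; simp
  have hsumsq := horth j0 j0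
  rw [if_pos rfl] at hsumsq
  have hnontriv : ∀ i, ∃ i', i' ≠ i ∧ Q i' j0 ≠ 0 := by
    intro i
    by_contra hcon
    push Not at hcon
    exact hj0 (by rw [hJ, Finset.mem_filter]; exact ⟨Finset.mem_univ _, i, hcon⟩)
  refine ⟨S, J.image σ, fun m => Q m j0, ?_, ?_, ?_, ?_, ?_⟩
  · obtain ⟨i', -, h⟩ := hnontriv j0
    exact ⟨i', (hSmem i').mpr h⟩
  · rw [Finset.disjoint_left]
    intro i hi hi'
    rw [Finset.mem_image] at hi'
    obtain ⟨j, hj, rfl⟩ := hi'
    rw [hSmem] at hi
    apply hi
    apply hother j hj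
    rintro rfl
    exact hj0 hj
  · intro m
    refine ⟨(hSmem m).mp m.2, ?_⟩
    obtain ⟨i', hi', h⟩ := hnontriv m
    have h1 : Q m j0 * Q m j0 + Q i' j0 * Q i' j0 ≤ 1 := by
      rw [← hsumsq, ← Finset.sum_pair (f := fun i => Q i j0 * Q i j0) hi'.symm]
      exact Finset.sum_le_sum_of_subset_of_nonneg (Finset.subset_univ _)
        (fun _ _ _ => mul_self_nonneg _)
    have h2 : 0 < Q i' j0 * Q i' j0 := mul_self_pos.mpr h
    rw [abs_lt]
    constructor <;> nlinarith
  · intro i hi
    rw [Finset.mem_image] at hi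
    obtain ⟨j, hj, rfl⟩ := hi
    have h1 := hent j j0
    rw [Finset.sum_eq_single (σ j)] at h1
    · have h2 : ∑ l, Q (σ j) j * adjF ℝ G (σ j) l * Q l j0 =
          Q (σ j) j * ∑ m ∈ row G S (σ j), Q m j0 := by
        rw [Finset.mul_sum]
        have h3 : ∑ m ∈ row G S (σ j), Q (σ j) j * Q m j0 =
            ∑ m : S, Q (σ j) j * adjF ℝ G (σ j) m * Q m j0 := by
          unfold row
          rw [Finset.sum_filter]
          refine Finset.sum_congr rfl fun m _ => ?_
          unfold adjF
          split_ifs <;> ring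
        rw [h3, Finset.sum_coe_sort S (fun m => Q (σ j) j * adjF ℝ G (σ j) m * Q m j0)]
        symm
        apply Finset.sum_subset (Finset.subset_univ _)
        intro m _ hm
        have : Q m j0 = 0 := by
          by_contra h
          exact hm ((hSmem m).mpr h)
        rw [this, mul_zero]
      rw [h2] at h1
      have hsign : Q (σ j) j = 1 ∨ Q (σ j) j = -1 := mul_self_eq_one_iff.mp (hcol j hj)
      unfold Tri
      unfold adjF at h1
      rcases hsign with h | h <;> rw [h] at h1 <;> split_ifs at h1
      · right; right; linarith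
      · right; left; linarith
      · left; linarith
      · right; left; linarith
    · intro i _ hi
      apply Finset.sum_eq_zero
      intro l _
      rw [hσ j hj i hi, zero_mul, zero_mul]
    · simp
  · exact Finset.card_image_of_injOn hinj

/-- number of small subsets -/
lemma card_small_subsets (s0 : ℕ) :
    ((Finset.univ : Finset (Finset V)).filter (fun S => S.card ≤ s0)).card ≤
      (Fintype.card V + 1) ^ s0 := by
  classical
  have h1 : ((Finset.univ : Finset (Finset V)).filter (fun S => S.card ≤ s0)) ⊆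
      (Finset.univ : Finset (Fin s0 → Option V)).image
        (fun g => Finset.univ.filter (fun v => ∃ k, g k = some v)) := by
    intro S hS
    rw [Finset.mem_filter] at hS
    rw [Finset.mem_image]
    have hc : S.card ≤ s0 := hS.2
    refine ⟨fun k => if h : (k : ℕ) < S.card then some ((S.equivFin.symm ⟨k, h⟩ : S) : V) else none,
      Finset.mem_univ _, ?_⟩
    ext v
    rw [Finset.mem_filter]
    simp only [Finset.mem_univ, true_and]
    constructor
    · rintro ⟨k, hk⟩
      split_ifs at hk with h
      rw [Option.some.injEq] at hk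
      rw [← hk]
      exact (S.equivFin.symm ⟨k, h⟩).2
    · intro hv
      have hlt : ((S.equivFin ⟨v, hv⟩ : Fin S.card) : ℕ) < S.card := (S.equivFin ⟨v, hv⟩).2
      refine ⟨⟨(S.equivFin ⟨v, hv⟩ : Fin S.card), by omega⟩, ?_⟩
      simp
  refine (Finset.card_le_card h1).trans (Finset.card_image_le.trans ?_)
  rw [Finset.card_univ, Fintype.card_fun, Fintype.card_option, Fintype.card_fin]

end Pool.Agent.H71.Haemers
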