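import Pool.Agent.H71.Haemers.Count

set_option autoImplicit false
set_option linter.unusedSectionVars false

namespace Pool.Agent.H71.Haemers

open Finset

variable {V : Type*} [Fintype V] [DecidableEq V]

lemma two_mul_finrank_le {F : Type*} [Field F] (U : Submodule F (V → F))
    (hiso : ∀ u ∈ U, ∀ v ∈ U, ∑ i, u i * v i = 0) :
    2 * Module.finrank F U ≤ Fintype.card V := by
  classical
  obtain ⟨P, -, hP1, hP2⟩ := exists_pivots U Finset.univ
    (fun u _ h => funext fun j => h j (Finset.mem_univ j))
  have hPcard : P.card = Module.finrank F U :=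
    le_antisymm (card_le_finrank U P hP2) (finrank_le_card U P hP1)
  have hT : ∀ u ∈ U, (∀ j ∈ Pᶜ, u j = 0) → u = 0 := by
    intro u hu hz
    apply hP1 u hu
    intro b hb
    obtain ⟨w, hw, hw1, hw2⟩ := hP2 b hb
    have h0 := hiso u hu w hw
    rw [Finset.sum_eq_single b] at h0
    · rwa [hw1, mul_one] at h0
    · intro i _ hib
      by_cases hiP : i ∈ P
      · rw [hw2 i hiP hib, mul_zero]
      · rw [hz i (Finset.mem_compl.mpr hiP), zero_mul]
    · simp
  have h1 := finrank_le_card U Pᶜ hT
  have h2 := Finset.card_compl P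
  have h3 := Finset.card_le_univ P
  omega

/-- integer vectors of squared norm at most `m` -/
noncomputable def shortVec (V : Type*) [Fintype V] [DecidableEq V] (m : ℕ) : Finset (V → ℤ) :=
  (Fintype.piFinset fun _ => Finset.Icc (-(m : ℤ)) m).filter (fun z => ∑ i, z i ^ 2 ≤ m)

lemma mem_shortVec {m : ℕ} {z : V → ℤ} : z ∈ shortVec V m ↔ ∑ i, z i ^ 2 ≤ m := by
  unfold shortVec
  rw [Finset.mem_filter, Fintype.mem_piFinset]
  constructor
  · exact fun h => h.2
  · intro h
    refine ⟨fun i => ?_, h⟩
    have h1 : z i ^ 2 ≤ ∑ i, z i ^ 2 :=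
      Finset.single_le_sum (fun j _ => sq_nonneg (z j)) (Finset.mem_univ i)
    have h2 : |z i| ≤ z i ^ 2 := by
      rcases eq_or_ne (z i) 0 with h0 | h0
      · simp [h0]
      · have := Int.one_le_abs h0
        rw [← sq_abs]
        nlinarith
    rw [Finset.mem_Icc]
    constructor
    · have := neg_abs_le (z i); linarith
    · have := le_abs_self (z i); linarith

lemma abs_sum_le {m : ℕ} {z : V → ℤ} (hz : z ∈ shortVec V m) :
    ∑ i, ((z i).toNat + (-(z i)).toNat) ≤ m := by
  rw [mem_shortVec] at hz
  have h2 : ∀ i, (((z i).toNat + (-(z i)).toNat : ℕ) : ℤ) ≤ z i ^ 2 := by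
    intro i
    have e : (((z i).toNat + (-(z i)).toNat : ℕ) : ℤ) = |z i| := by
      rcases abs_cases (z i) with h | h <;> push_cast <;> omega
    rw [e]
    rcases eq_or_ne (z i) 0 with h0 | h0
    · simp [h0]
    · have := Int.one_le_abs h0
      rw [← sq_abs]
      nlinarith
  have : ((∑ i, ((z i).toNat + (-(z i)).toNat) : ℕ) : ℤ) ≤ m := by
    rw [Nat.cast_sum]
    exact (Finset.sum_le_sum fun i _ => h2 i).trans hz
  exact_mod_cast this

/-- number of short vectors -/
lemma card_shortVec_le (m : ℕ) :
    ((shortVec V m).card : ℝ) ≤ 128 ^ m * (128 / 127) ^ (2 * Fintype.card V) := by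
  classical
  -- the map to pairs
  let W : Finset (V ⊕ V → ℕ) :=
    (Fintype.piFinset fun _ => Finset.range (m + 1)).filter (fun w => ∑ i, w i ≤ m)
  have h1 : (shortVec V m).card ≤ W.card := by
    refine Finset.card_le_card_of_injOn
      (fun z => Sum.elim (fun i => (z i).toNat) (fun i => (-(z i)).toNat)) ?_ ?_
    · intro z hz
      have hs := abs_sum_le hz
      simp only [W, Finset.coe_filter, Set.mem_ofPred_eq, Fintype.mem_piFinset, Finset.mem_range]
      have hsum : ∑ i : V ⊕ V, Sum.elim (fun i => (z i).toNat) (fun i => (-(z i)).toNat) i ≤ m := by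
        rw [Fintype.sum_sum_type]
        simp only [Sum.elim_inl, Sum.elim_inr]
        rw [← Finset.sum_add_distrib]
        exact hs
      refine ⟨fun i => ?_, hsum⟩
      have := Finset.single_le_sum (f := fun i : V ⊕ V => Sum.elim (fun i => (z i).toNat) (fun i => (-(z i)).toNat) i) (fun j _ => Nat.zero_le _) (Finset.mem_univ i)
      omega
    · intro z _ z' _ he
      funext i
      have e1 := congrFun he (Sum.inl i)
      have e2 := congrFun he (Sum.inr i)
      simp only [Sum.elim_inl, Sum.elim_inr] at e1 e2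
      omega
  have h2 : (W.card : ℝ) * (1 / 128) ^ m ≤ (128 / 127) ^ (2 * Fintype.card V) := by
    have e1 : (W.card : ℝ) * (1 / 128) ^ m = ∑ _w ∈ W, (1 / 128 : ℝ) ^ m := by
      rw [Finset.sum_const, nsmul_eq_mul]
    rw [e1]
    calc ∑ _w ∈ W, (1 / 128 : ℝ) ^ m ≤ ∑ w ∈ W, ∏ i, (1 / 128 : ℝ) ^ (w i) := by
          apply Finset.sum_le_sum
          intro w hw
          rw [Finset.prod_pow_eq_pow_sum]
          apply pow_le_pow_of_le_one (by norm_num) (by norm_num)
          exact (Finset.mem_filter.mp hw).2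
      _ ≤ ∑ w ∈ Fintype.piFinset fun _ : V ⊕ V => Finset.range (m + 1), ∏ i, (1 / 128 : ℝ) ^ (w i) := by
          apply Finset.sum_le_sum_of_subset_of_nonneg (Finset.filter_subset _ _)
          intro w _ _
          positivity
      _ = ∏ _i : V ⊕ V, ∑ k ∈ Finset.range (m + 1), (1 / 128 : ℝ) ^ k := by
          rw [Finset.prod_univ_sum]
      _ ≤ ∏ _i : V ⊕ V, (128 / 127 : ℝ) := by
          apply Finset.prod_le_prod
          · intro _ _; positivity
          · intro _ _
            rw [geom_sum_eq (by norm_num)]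
            have : (0 : ℝ) < (1 / 128) ^ (m + 1) := by positivity
            rw [div_le_iff_of_neg (by norm_num)]
            linarith
      _ = (128 / 127) ^ (2 * Fintype.card V) := by
          rw [Finset.prod_const, Finset.card_univ, Fintype.card_sum]
          congr 1
          ring
  have h3 : (W.card : ℝ) ≤ 128 ^ m * (128 / 127) ^ (2 * Fintype.card V) := by
    have e2 : (W.card : ℝ) = 128 ^ m * ((W.card : ℝ) * (1 / 128) ^ m) := by
      rw [one_div, inv_pow]; field_simp
    rw [e2]
    exact mul_le_mul_of_nonneg_left h2 (by positivity)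
  exact le_trans (by exact_mod_cast h1) h3

end Pool.Agent.H71.Haemers
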